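import Pool.Agent.Work.MP_db9399_sw.Mach
import Pool.Agent.Work.MP_db9399_lh_helper29.CAPE

/-! MP_db9399, PHASE 2, block CAPE2: critical sets of the last rounds contain many vertices of
`mM` (helper31; from helper29's CAPE of LCH). -/

set_option autoImplicit false

namespace Pool.Agent.Work.MP_db9399_sw.helper31

open Finset Classical
open Pool.Agent.Work.MP_db9399_lh (Lh Cr ce su kp io sp pt cr cy rf rx rr tj ty inM rP rR np nr eP
  pr qr qe Vq Stmt_PAT card_zmod card_Lh)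
open Pool.Agent.Work.MP_db9399_bg (den cl LabP Good PN IsPat en enP Sep Near REnv r0 Deep Spr Ok
  Lbl bx c3f c3 rs rs_symm eR HPre Ix mem_nb mem_cl)
open Pool.Agent.Work.MP_db9399_lc (BL)
open Pool.Agent.Work.MP_db9399_lh.helper29 (plab mem_plab den_plab mem_eP near_part)
open Pool.Agent.Work.MP_db9399_all (nb)
open Pool.Agent.Work.MP_db9399_sc (cut Crit Conn Env Fam Rnd Hv)
open Pool.Agent.Work.MP_db9399_sw

universe u

theorem stmt_CAPE2 (hT1 : MP_db9399_lc.Stmt_T1.{u}) (hPAT : Stmt_PAT) : Stmt_CAPE2.{u} := by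
  intro g l hg hg1 hl
  obtain ⟨δ1, hδ1, hT1'⟩ := hT1 g (1 / 10) 2 (2 * l + 1) (2 * l + 1) hg (by norm_num)
  have hΛ0 : (0 : ℝ) < 2 * (l : ℝ) + 1 := by positivity
  refine ⟨δ1, 1 / (4 * (2 * (l : ℝ) + 1)), hδ1, by positivity, ?_, ?_⟩
  · rw [div_le_one (by positivity)]
    have : (0 : ℝ) ≤ l := Nat.cast_nonneg _
    linarith
  intro m r K K1 S hm
  have hM : 0 < Fintype.card (Lh l m r K K1 S) := by rw [card_Lh]; positivity
  obtain ⟨σ1, c11, ε1, d1, hσ1, hc11, hε1, HT1⟩ := hT1' (Fintype.card (Lh l m r K K1 S)) hM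
  obtain ⟨-, hPat⟩ := hPAT l m r K K1 S (by omega) hm
  refine ⟨σ1, c11, ε1, d1, hσ1, hc11, hε1, ?_⟩
  intro V _ G d lab hd hBG hLab
  intro i F U L C qq hE hqq1 hqq2 hLU hcrit hconn
  have hqn : ((2 : ℕ) : ℝ) * (1 / (3 * (2 * (l : ℝ) + 1))) * (d : ℝ) = qe l d := by
    rw [qe]; push_cast; ring
  obtain ⟨Y, hY1, -, hY3, hY4⟩ := HT1 (eP l m r K K1 S i) (eR l)
    (1 / (3 * (2 * (l : ℝ) + 1))) G F d qq lab U ∅ L C (hPat i) (by rw [ZMod.card]) rfl hd hBG
    hLab (by rw [hqn]; exact hE) (by rw [hqn]; exact hqq1)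
    (by rw [hqn]; exact hqq2) hLU hcrit hconn
  have hYpos : (0 : ℝ) ≤ Y.card := Nat.cast_nonneg _
  have hCi : C ⊆ cl lab (plab i) := by
    intro v hv
    have hvU : v ∈ U := hLU (hcrit.1 hv)
    obtain ⟨b, hb⟩ := hE.UP v hvU (by simp)
    rw [mem_eP] at hb
    rw [mem_cl, mem_plab]
    exact hb.2
  have hCC : C ∩ cl lab (plab i) = C := inter_eq_left.mpr hCi
  have hsd : ((C \ Y).card : ℝ) + (((Y ∩ cl lab (plab i)) \ C).card : ℝ) ≤
      1 / 30 * Y.card := by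
    have h1 := near_part hY4
    rw [hCC] at h1
    refine h1.trans (le_of_eq ?_)
    have h2 : (2 * (l : ℝ) + 1) * (1 / 10 * (1 / (3 * (2 * (l : ℝ) + 1))) * (Y.card : ℝ)) =
        (2 * (l : ℝ) + 1) / (2 * (l : ℝ) + 1) * (1 / 30 * (Y.card : ℝ)) := by
      field_simp
      ring
    rw [h2, div_self hΛ0.ne', one_mul]
  have hsd2 : (0 : ℝ) ≤ (((Y ∩ cl lab (plab i)) \ C).card : ℝ) := Nat.cast_nonneg _
  have hcv : (C.card : ℝ) ≤ 2 / 5 * Y.card := by
    have h0 := hY3 (plab i)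
    rw [den_plab, abs_le] at h0
    have : C ⊆ (Y ∩ cl lab (plab i)) ∪ (C \ Y) := by
      intro v hv
      by_cases hvY : v ∈ Y
      · exact mem_union_left _ (mem_inter.mpr ⟨hvY, hCi hv⟩)
      · exact mem_union_right _ (mem_sdiff.mpr ⟨hv, hvY⟩)
    have h2 : (C.card : ℝ) ≤ ((Y ∩ cl lab (plab i)).card : ℝ) + ((C \ Y).card : ℝ) := by
      exact_mod_cast (card_le_card this).trans (card_union_le _ _)
    linarith [h0.2]
  -- the class of the label 2
  set b : ZMod (2 * l + 1) := ((2 : ℕ) : ZMod (2 * l + 1)) with hb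
  have hbv : b.val = 2 := by rw [hb]; exact ZMod.val_natCast_of_lt (by omega)
  have h1 := hY3 (eP l m r K K1 S i b)
  rw [(hPat i).dn b, abs_le] at h1
  have h2 : (((Y ∩ cl lab (eP l m r K K1 S i b)) \
      (C ∩ cl lab (eP l m r K K1 S i b))).card : ℝ) ≤
      1 / 10 * (1 / (3 * (2 * (l : ℝ) + 1))) * Y.card :=
    (le_add_of_nonneg_left (Nat.cast_nonneg _)).trans (hY4 b)
  have h5 : ((Y ∩ cl lab (eP l m r K K1 S i b)).card : ℝ) ≤
      ((C.filter (fun v => mM (lab v))).card : ℝ) +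
      (((Y ∩ cl lab (eP l m r K K1 S i b)) \ (C ∩ cl lab (eP l m r K K1 S i b))).card : ℝ) := by
    have : Y ∩ cl lab (eP l m r K K1 S i b) ⊆ (C.filter (fun v => mM (lab v))) ∪
        ((Y ∩ cl lab (eP l m r K K1 S i b)) \ (C ∩ cl lab (eP l m r K K1 S i b))) := by
      intro v hv
      by_cases hvC : v ∈ C
      · refine mem_union_left _ (mem_filter.mpr ⟨hvC, ?_⟩)
        have h6 := (mem_inter.mp hv).2
        rw [mem_cl, mem_eP] at h6
        show (lab v).1.2.1.val = 2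
        rw [h6.1, hbv]
      · refine mem_union_right _ (mem_sdiff.mpr ⟨hv, fun h => hvC (mem_inter.mp h).1⟩)
    exact_mod_cast (card_le_card this).trans (card_union_le _ _)
  have h7 : 8 / 10 * (1 / (3 * (2 * (l : ℝ) + 1))) * Y.card ≤
      ((C.filter (fun v => mM (lab v))).card : ℝ) := by
    have h6 : 1 / (3 * (2 * (l : ℝ) + 1)) * (Y.card : ℝ) -
        1 / 10 * (1 / (3 * (2 * (l : ℝ) + 1))) * (Y.card : ℝ) ≤
        ((Y ∩ cl lab (eP l m r K K1 S i b)).card : ℝ) := by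
      have h8 := h1.1
      rw [neg_le_sub_iff_le_add, ← sub_le_iff_le_add] at h8
      exact h8
    have h9 := (h6.trans h5).trans (add_le_add_right h2 _)
    linarith [h9]
  refine le_trans ?_ h7
  have h8 : 1 / (4 * (2 * (l : ℝ) + 1)) * (C.card : ℝ) ≤
      1 / (4 * (2 * (l : ℝ) + 1)) * (2 / 5 * Y.card) :=
    mul_le_mul_of_nonneg_left hcv (by positivity)
  refine h8.trans ?_
  have h9 : 8 / 10 * (1 / (3 * (2 * (l : ℝ) + 1))) * (Y.card : ℝ) -
      1 / (4 * (2 * (l : ℝ) + 1)) * (2 / 5 * Y.card) =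
      (Y.card : ℝ) / (6 * (2 * (l : ℝ) + 1)) := by
    field_simp
    ring
  have h10 : (0 : ℝ) ≤ (Y.card : ℝ) / (6 * (2 * (l : ℝ) + 1)) := by positivity
  linarith

end Pool.Agent.Work.MP_db9399_sw.helper31
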